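import Pool.Agent.H33.Cheb2

set_option autoImplicit false

namespace Pool.Agent.Results.MP_beddab_an.Full

open Pool.Agent.H33.Cheb TopologicalSpace

/-- `G` is a Chebyshev set: every point has exactly one best approximation in `G`. -/
def IsCheb {X : Type} [NormedAddCommGroup X] (G : Set X) : Prop :=
  ∀ φ : X, ∃! γ : X, γ ∈ G ∧ ∀ γ' ∈ G, ‖φ - γ‖ ≤ ‖φ - γ'‖

/-- The annihilator of `x 1, …, x n` in the dual space. -/
def Ann (𝕜 : Type) [RCLike 𝕜] {E : Type} [NormedAddCommGroup E] [NormedSpace 𝕜 E] {n : ℕ}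
    (x : Fin n → E) : Set (StrongDual 𝕜 E) := {f | ∀ j, f (x j) = 0}

theorem result (𝕜 : Type) [RCLike 𝕜] :
    (∃ (E : Type) (_ : NormedAddCommGroup E) (_ : NormedSpace 𝕜 E), SeparableSpace E ∧
      (∀ k : ℕ, ∃ x : Fin k → E, LinearIndependent 𝕜 x) ∧
      ∀ n : ℕ, 1 ≤ n → ∀ x : Fin n → E, LinearIndependent 𝕜 x → ¬ IsCheb (Ann 𝕜 x)) ∧
    ∀ (E : Type) [NormedAddCommGroup E] [NormedSpace 𝕜 E] [SeparableSpace E] [CompleteSpace E]
      (n : ℕ), Dense {x : Fin n → E | IsCheb (Ann 𝕜 x)} ∧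
      ((∃ x : Fin n → E, LinearIndependent 𝕜 x) →
        ∃ x : Fin n → E, LinearIndependent 𝕜 x ∧ IsCheb (Ann 𝕜 x)) := by
  refine ⟨⟨C00 𝕜, inferInstance, inferInstance, c00_sep, fun k =>
    ⟨_, c00_li.comp _ (Fin.val_injective (n := k))⟩, fun n hn x hx => c00_bad hn x hx⟩,
    fun E _ _ _ _ n => ⟨good, fun h => ?_⟩⟩
  obtain ⟨x, h1, h2⟩ := (good (𝕜 := 𝕜) (E := E) (n := n)).inter_open_nonempty _
    isOpen_setOfPred_linearIndependent h
  exact ⟨x, h1, h2⟩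

end Pool.Agent.Results.MP_beddab_an.Full
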